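import Pool.Agent.Run7.h693.RZ.Defs

/-!
# Pieces SEC, ROT and MEA of project RZ (helper693)

By helper610.
-/

set_option autoImplicit false

open MeasureTheory Polynomial

namespace Pool.Agent.Run7.h610.RZ

open Pool.Agent.Run7.h693.RZ

/-- A positive lower bound of finitely many positive numbers. -/
theorem exists_lower {ι : Type*} (s : Finset ι) (f : ι → ℝ) (h : ∀ i ∈ s, 0 < f i) :
    ∃ d : ℝ, 0 < d ∧ ∀ i ∈ s, d ≤ f i := by
  classical
  induction s using Finset.induction_on with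
  | empty => exact ⟨1, one_pos, by simp⟩
  | insert a s _ ih =>
    obtain ⟨d, hd, hd'⟩ := ih fun i hi => h i (Finset.mem_insert_of_mem hi)
    refine ⟨min d (f a), lt_min hd (h a (Finset.mem_insert_self _ _)), fun i hi => ?_⟩
    rcases Finset.mem_insert.1 hi with rfl | hi
    · exact min_le_right _ _
    · exact (min_le_left _ _).trans (hd' i hi)

theorem norm_exp_root (Q : ℕ) : ‖Complex.exp (2 * Real.pi * Complex.I / Q)‖ = 1 := by
  have e : (2 * Real.pi * Complex.I / Q : ℂ) = ((2 * Real.pi / Q : ℝ) : ℂ) * Complex.I := by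
    push_cast
    ring
  rw [e]
  exact Complex.norm_exp_ofReal_mul_I _

/-- **SEC.** -/
theorem t_SEC : S_SEC := by
  intro Q hQ
  set v : ℂ := Complex.exp (2 * Real.pi * Complex.I / Q) with hv
  have hprim : IsPrimitiveRoot v Q := Complex.isPrimitiveRoot_exp Q (by omega)
  have hv1 : ‖v‖ = 1 := norm_exp_root Q
  obtain ⟨d, hd, hd'⟩ := exists_lower
    ((Finset.range Q ×ˢ Finset.range Q).filter fun p => p.1 ≠ p.2)
    (fun p => ‖v ^ p.1 - v ^ p.2‖) (by
      intro p hp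
      rw [Finset.mem_filter, Finset.mem_product, Finset.mem_range, Finset.mem_range] at hp
      rw [norm_pos_iff, sub_ne_zero]
      intro h
      exact hp.2 (hprim.pow_inj hp.1.1 hp.1.2 h))
  refine ⟨max 0 (1 - d ^ 2 / 8), le_max_left _ _, max_lt one_pos (by nlinarith [sq_pos_of_pos hd]), ?_⟩
  set c : ℝ := max 0 (1 - d ^ 2 / 8) with hc
  have hcd : 8 * (1 - c) ≤ d ^ 2 := by
    have := le_max_right 0 (1 - d ^ 2 / 8)
    rw [← hc] at this
    linarith
  intro u j j' hj hj' hx hy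
  by_contra hne
  have h1 : d ≤ ‖v ^ j - v ^ j'‖ := hd' (j, j') (by
    rw [Finset.mem_filter, Finset.mem_product, Finset.mem_range, Finset.mem_range]
    exact ⟨⟨hj, hj'⟩, hne⟩)
  set ρ : ℝ := ‖u‖ with hρ
  have hnx : ‖v ^ j * u‖ = ρ := by rw [norm_mul, norm_pow, hv1, one_pow, one_mul]
  have hny : ‖v ^ j' * u‖ = ρ := by rw [norm_mul, norm_pow, hv1, one_pow, one_mul]
  have hxy : v ^ j * u - v ^ j' * u = (v ^ j - v ^ j') * u := by ring
  have hnxy : ‖v ^ j * u - v ^ j' * u‖ = ‖v ^ j - v ^ j'‖ * ρ := by rw [hxy, norm_mul]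
  set x : ℂ := v ^ j * u with hxd
  set y : ℂ := v ^ j' * u with hyd
  have hx1 : c * ρ < x.re := by rw [← hnx]; exact hx
  have hy1 : c * ρ < y.re := by rw [← hny]; exact hy
  have hc0 : 0 ≤ c := le_max_left _ _
  have hρ0 : 0 ≤ ρ := norm_nonneg u
  have hρ1 : 0 < ρ := by
    have h2 : x.re ≤ ρ := by rw [← hnx]; exact Complex.re_le_norm x
    have h3 : 0 ≤ c * ρ := mul_nonneg hc0 hρ0
    linarith
  have hx2 : x.re ^ 2 + x.im ^ 2 = ρ ^ 2 := by
    rw [← hnx, Complex.sq_norm, Complex.normSq_apply]; ring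
  have hy2 : y.re ^ 2 + y.im ^ 2 = ρ ^ 2 := by
    rw [← hny, Complex.sq_norm, Complex.normSq_apply]; ring
  have h4 : ‖x - y‖ ^ 2 = (x.re - y.re) ^ 2 + (x.im - y.im) ^ 2 := by
    rw [Complex.sq_norm, Complex.normSq_apply, Complex.sub_re, Complex.sub_im]; ring
  have h5 : ‖x - y‖ ^ 2 < 8 * ρ ^ 2 * (1 - c) := by
    rw [h4]
    have e1 : (x.re - y.re) ^ 2 + (x.im - y.im) ^ 2 ≤
        2 * ((x.re - ρ) ^ 2 + x.im ^ 2) + 2 * ((y.re - ρ) ^ 2 + y.im ^ 2) := by
      nlinarith [sq_nonneg (x.re - ρ + (y.re - ρ)), sq_nonneg (x.im + y.im)]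
    have e2 : (x.re - ρ) ^ 2 + x.im ^ 2 = 2 * ρ ^ 2 - 2 * ρ * x.re := by nlinarith
    have e3 : (y.re - ρ) ^ 2 + y.im ^ 2 = 2 * ρ ^ 2 - 2 * ρ * y.re := by nlinarith
    have e4 : ρ * (c * ρ) < ρ * x.re := mul_lt_mul_of_pos_left hx1 hρ1
    have e5 : ρ * (c * ρ) < ρ * y.re := mul_lt_mul_of_pos_left hy1 hρ1
    rw [e2, e3] at e1
    nlinarith
  have h6 : d * ρ ≤ ‖x - y‖ := by
    rw [hnxy]
    exact mul_le_mul_of_nonneg_right h1 hρ0
  have h7 : (d * ρ) ^ 2 ≤ ‖x - y‖ ^ 2 := pow_le_pow_left₀ (by positivity) h6 2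
  have h8 : 8 * ρ ^ 2 * (1 - c) ≤ d ^ 2 * ρ ^ 2 := by nlinarith [sq_nonneg ρ]
  nlinarith

/-- **ROT.** -/
theorem t_ROT : S_ROT := by
  intro n ω hω
  have h : MeasurePreserving (fun z : ℂ => ω * z) volume volume := by
    have h1 := (rotation (⟨ω, mem_sphere_zero_iff_norm.2 hω⟩ : Circle)).measurePreserving
    exact h1
  exact volume_preserving_pi (fun _ : Fin n => h)

/-- **MEA.** -/
theorem t_MEA : S_SEC → S_ROT → S_MEA := by
  intro hSEC hROT n Q hQ
  obtain ⟨c, hc0, hc1, hc⟩ := hSEC Q hQ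
  refine ⟨c, hc0, hc1, fun M hM w a => ?_⟩
  set v : ℂ := Complex.exp (2 * Real.pi * Complex.I / Q) with hv
  set ξ : ℂ := Complex.exp (2 * Real.pi * Complex.I / (Q * M : ℕ)) with hξ
  have hξ1 : ‖ξ‖ = 1 := norm_exp_root (Q * M)
  have hξM : ξ ^ M = v := by
    rw [hξ, hv, ← Complex.exp_nat_mul]
    congr 1
    have h1 : (Q : ℂ) ≠ 0 := by exact_mod_cast (by omega : Q ≠ 0)
    have h2 : (M : ℂ) ≠ 0 := by exact_mod_cast (by omega : M ≠ 0)
    push_cast
    field_simp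
  let A : ℕ → Set (Fin n → ℂ) := fun j => {z | v ^ j * (ip z w) ^ M ∈ Sec c} ∩ Bal n a
  have hmeas : ∀ j, MeasurableSet (A j) := by
    intro j
    refine MeasurableSet.inter ?_ (measurableSet_Bal n a)
    exact ((isOpen_Sec c).preimage
      (continuous_const.mul ((continuous_ip w).pow M))).measurableSet
  have hvol : ∀ j, volume (A j) = volume (A 0) := by
    intro j
    have hpre : A j = (fun z : Fin n → ℂ => ξ ^ j • z) ⁻¹' (A 0) := by
      ext z
      simp only [A, Set.mem_inter_iff, Set.mem_ofPred_eq, Set.mem_preimage, Bal, pow_zero, one_mul,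
        ip_smul, nrm_smul, norm_pow, hξ1, one_pow, mul_pow]
      rw [← pow_mul, mul_comm j M, pow_mul, hξM]
    rw [hpre]
    exact (hROT n (ξ ^ j) (by rw [norm_pow, hξ1, one_pow])).measure_preimage
      (hmeas 0).nullMeasurableSet
  have hdisj : Set.PairwiseDisjoint (↑(Finset.range Q) : Set ℕ) A := by
    intro j hj j' hj' hne
    rw [Finset.coe_range, Set.mem_Iio] at hj hj'
    refine Set.disjoint_left.2 fun z hz hz' => hne ?_
    exact hc _ j j' hj hj' hz.1 hz'.1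
  have hA0 : A 0 = {z : Fin n → ℂ | (ip z w) ^ M ∈ Sec c} ∩ Bal n a := by
    simp only [A, pow_zero, one_mul]
  rw [← hA0]
  calc (Q : ENNReal) * volume (A 0) = ∑ j ∈ Finset.range Q, volume (A j) := by
        rw [Finset.sum_congr rfl fun j _ => hvol j, Finset.sum_const, Finset.card_range,
          nsmul_eq_mul]
    _ = volume (⋃ j ∈ Finset.range Q, A j) :=
        (measure_biUnion_finset hdisj fun j _ => hmeas j).symm
    _ ≤ volume (Bal n a) := measure_mono (Set.iUnion₂_subset fun j _ => Set.inter_subset_right)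

end Pool.Agent.Run7.h610.RZ
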